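import Mathlib
import Pool.Agent.helper69.MU.Defs

/-!
# A point in many clopen sets (module M6b of project MU)

For clopen sets `R n` of the product `I → X` whose measure is at least `δ` for many `n` there is a point which lies in
many of them, for ultrafilters with the diagonal property.
-/

set_option autoImplicit false

namespace Pool.Agent.helper39.MU

open Finset Filter MeasureTheory

section general

variable {Ω : Type*} [MeasurableSpace Ω] (μ : Measure Ω) [IsProbabilityMeasure μ] (U : Ultrafilter ℕ)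
  (R : ℕ → Set Ω)

/-- many of the sets `R k` meet `C` in a set of measure bounded below -/
def Pos (C : Set Ω) : Prop := ∃ ε : ℝ, 0 < ε ∧ {k | ε ≤ μ.real (C ∩ R k)} ∈ U

variable {μ U R}

theorem not_pos {C : Set Ω} (h : ¬ Pos μ U R C) {ε : ℝ} (hε : 0 < ε) : {k | μ.real (C ∩ R k) < ε} ∈ U := by
  have h1 : {k | ε ≤ μ.real (C ∩ R k)} ∉ U := fun h2 => h ⟨ε, hε, h2⟩
  have h2 := Ultrafilter.compl_mem_iff_notMem.2 h1
  refine mem_of_superset h2 fun k hk => ?_
  exact not_le.1 (show ¬ ε ≤ μ.real (C ∩ R k) from hk)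

theorem Pos.nonempty {C : Set Ω} (h : Pos μ U R C) : C.Nonempty := by
  obtain ⟨ε, hε, h⟩ := h
  obtain ⟨k, hk⟩ := U.nonempty_of_mem h
  have h1 : 0 < μ.real (C ∩ R k) := lt_of_lt_of_le hε hk
  by_contra hC
  rw [Set.not_nonempty_iff_eq_empty] at hC
  rw [hC, Set.empty_inter, measureReal_empty] at h1
  exact lt_irrefl _ h1

theorem Pos.step (hR : ∀ k, MeasurableSet (R k)) {C : Set Ω} (hC : MeasurableSet C) (h : Pos μ U R C) :
    {k | Pos μ U R (C ∩ R k)} ∈ U := by
  classical
  obtain ⟨ε, hε, h⟩ := h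
  by_contra hcon
  have hcon := Ultrafilter.compl_mem_iff_notMem.2 hcon
  have key : ∀ N : ℕ, ∃ s : Finset ℕ, (∀ i ∈ s, ¬ Pos μ U R (C ∩ R i)) ∧
      N * (ε / 2) ≤ μ.real (⋃ i ∈ s, C ∩ R i) := by
    intro N
    induction N with
    | zero => exact ⟨∅, by simp, by simp⟩
    | succ N ih =>
      obtain ⟨s, hs, hs'⟩ := ih
      set η : ℝ := ε / (2 * (s.card + 1)) with hη
      have hηp : 0 < η := by positivity
      have h1 : {k | ∀ i ∈ s, μ.real (C ∩ R i ∩ R k) < η} ∈ U := by
        have h2 : (⋂ i ∈ s, {k | μ.real (C ∩ R i ∩ R k) < η}) ∈ (U : Filter ℕ) :=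
          (Filter.biInter_finset_mem s).2 fun i hi => not_pos (hs i hi) hηp
        refine mem_of_superset h2 fun k hk i hi => ?_
        exact Set.mem_iInter₂.1 hk i hi
      obtain ⟨k, hk1, hk2, hk3⟩ := U.nonempty_of_mem (inter_mem h (inter_mem hcon h1))
      refine ⟨insert k s, ?_, ?_⟩
      · intro i hi
        rw [mem_insert] at hi
        rcases hi with rfl | hi
        · exact hk2
        · exact hs i hi
      · have e1 : (⋃ i ∈ insert k s, C ∩ R i) = (⋃ i ∈ s, C ∩ R i) ∪ (C ∩ R k) := by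
          rw [Finset.set_biUnion_insert, Set.union_comm]
        rw [e1]
        have h2 := measureReal_union_add_inter (μ := μ) (s := ⋃ i ∈ s, C ∩ R i) (hC.inter (hR k))
            (measure_ne_top _ _) (measure_ne_top _ _)
        have h3 : μ.real ((⋃ i ∈ s, C ∩ R i) ∩ (C ∩ R k)) ≤ ε / 2 := by
          have h4 : (⋃ i ∈ s, C ∩ R i) ∩ (C ∩ R k) ⊆ ⋃ i ∈ s, C ∩ R i ∩ R k := by
            rintro x ⟨hx, hx'⟩
            obtain ⟨i, hi, hxi⟩ := Set.mem_iUnion₂.1 hx
            exact Set.mem_iUnion₂.2 ⟨i, hi, hxi, hx'.2⟩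
          calc μ.real ((⋃ i ∈ s, C ∩ R i) ∩ (C ∩ R k)) ≤ μ.real (⋃ i ∈ s, C ∩ R i ∩ R k) :=
                measureReal_mono h4 (measure_ne_top _ _)
            _ ≤ ∑ i ∈ s, μ.real (C ∩ R i ∩ R k) := measureReal_biUnion_finset_le s _
            _ ≤ ∑ i ∈ s, η := Finset.sum_le_sum fun i hi => (hk3 i hi).le
            _ = s.card * η := by rw [sum_const, nsmul_eq_mul]
            _ ≤ ε / 2 := by
                rw [hη]
                have hc : (0 : ℝ) ≤ (s.card : ℝ) := Nat.cast_nonneg _
                rw [mul_div_assoc', div_le_div_iff₀ (by positivity) (by norm_num)]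
                nlinarith
        have h5 : ε ≤ μ.real (C ∩ R k) := hk1
        push_cast
        linarith
  obtain ⟨N, hN⟩ := exists_nat_gt (2 / ε)
  obtain ⟨s, _, hs⟩ := key N
  have h1 : μ.real (⋃ i ∈ s, C ∩ R i) ≤ 1 := measureReal_le_one
  rw [div_lt_iff₀ hε] at hN
  linarith

/-- **Many sets with nonempty finite intersections.** -/
theorem exists_fip (hdiag : ∀ B : ℕ → Set ℕ, (∀ k, B k ∈ U) → ∃ K ∈ U, ∀ k ∈ K, ∀ k' ∈ K, k < k' → k' ∈ B k)
    (hR : ∀ k, MeasurableSet (R k)) {δ : ℝ} (hδ : 0 < δ) (h : {k | δ ≤ μ.real (R k)} ∈ U) :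
    ∃ K ∈ U, ∀ s : Finset ℕ, (∀ i ∈ s, i ∈ K) → (⋂ i ∈ s, R i).Nonempty := by
  classical
  have hm : ∀ s : Finset ℕ, MeasurableSet (⋂ i ∈ s, R i) := fun s =>
    Finset.measurableSet_biInter s fun i _ => hR i
  have h0 : Pos μ U R Set.univ := ⟨δ, hδ, by simpa only [Set.univ_inter] using h⟩
  have h1 : {k | Pos μ U R (R k)} ∈ U := by
    have := h0.step hR MeasurableSet.univ
    simpa only [Set.univ_inter] using this
  obtain ⟨K, hK, hK'⟩ := hdiag (fun k => {k' | ∀ s ∈ (range (k + 1)).powerset, Pos μ U R (⋂ i ∈ s, R i) →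
      Pos μ U R ((⋂ i ∈ s, R i) ∩ R k')}) (by
    intro k
    have h2 : (⋂ s ∈ (range (k + 1)).powerset, {k' | Pos μ U R (⋂ i ∈ s, R i) →
        Pos μ U R ((⋂ i ∈ s, R i) ∩ R k')}) ∈ (U : Filter ℕ) := by
      refine (Filter.biInter_finset_mem _).2 fun s _ => ?_
      by_cases hs : Pos μ U R (⋂ i ∈ s, R i)
      · exact mem_of_superset (hs.step hR (hm s)) fun k' hk' _ => hk'
      · exact mem_of_superset univ_mem fun k' _ h' => absurd h' hs
    refine mem_of_superset h2 fun k' hk' s hs => ?_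
    exact Set.mem_iInter₂.1 hk' s hs)
  refine ⟨K ∩ {k | Pos μ U R (R k)}, inter_mem hK h1, ?_⟩
  have key : ∀ s : Finset ℕ, (∀ i ∈ s, i ∈ K ∩ {k | Pos μ U R (R k)}) → Pos μ U R (⋂ i ∈ s, R i) := by
    intro s
    induction s using Finset.induction_on_max with
    | empty => intro _; simpa using h0
    | insert k s hk ih =>
      intro hs
      have hs' : ∀ i ∈ s, i ∈ K ∩ {k | Pos μ U R (R k)} := fun i hi => hs i (mem_insert_of_mem hi)
      have hkK := hs k (mem_insert_self _ _)
      rw [Finset.set_biInter_insert, Set.inter_comm]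
      rcases s.eq_empty_or_nonempty with rfl | hne
      · simpa using hkK.2
      · have hmax := s.max'_mem hne
        have h2 := hK' (s.max' hne) (hs' _ hmax).1 k hkK.1 (hk _ hmax)
        refine h2 s ?_ (ih hs')
        rw [mem_powerset]
        intro i hi
        rw [mem_range]
        exact Nat.lt_succ_of_le (s.le_max' i hi)
  exact fun s hs => (key s hs).nonempty

end general

section product

open Classical in
/-- **A point in many clopen sets**, for ultrafilters with the diagonal property. -/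
theorem point_in_many_of_diag {I X : Type} [Fintype X] [Nonempty X] (U : Ultrafilter ℕ)
    (hdiag : ∀ B : ℕ → Set ℕ, (∀ k, B k ∈ U) → ∃ K ∈ U, ∀ k ∈ K, ∀ k' ∈ K, k < k' → k' ∈ B k)
    (R : ℕ → Set (I → X)) (W : ℕ → Finset I)
    (hW : ∀ n x y, (∀ i ∈ W n, x i = y i) → (x ∈ R n ↔ y ∈ R n)) (x0 : X) (δ : ℝ) (hδ : 0 < δ)
    (h : ∀ᶠ n in (U : Filter ℕ), δ * (Fintype.card X : ℝ) ^ (W n).card ≤
      Nat.card {u : W n → X // (fun i => if hi : i ∈ W n then u ⟨i, hi⟩ else x0) ∈ R n}) :
    ∃ y, ∀ᶠ n in (U : Filter ℕ), y ∈ R n := by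
  letI : MeasurableSpace X := ⊤
  haveI : MeasurableSingletonClass X := ⟨fun _ => trivial⟩
  letI : TopologicalSpace X := ⊥
  haveI : DiscreteTopology X := ⟨rfl⟩
  let ν : Measure X := (PMF.uniformOfFintype X).toMeasure
  haveI : IsProbabilityMeasure ν := inferInstanceAs (IsProbabilityMeasure (PMF.uniformOfFintype X).toMeasure)
  have hν : ∀ x : X, ν {x} = (Fintype.card X : ENNReal)⁻¹ := fun x => by
    show (PMF.uniformOfFintype X).toMeasure {x} = _
    rw [PMF.toMeasure_apply_singleton _ _ (measurableSet_singleton x), PMF.uniformOfFintype_apply]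
  let μ : Measure (I → X) := Measure.infinitePi fun _ => ν
  -- the sets `R n` as preimages
  let S : ∀ n, Set (W n → X) := fun n => {u | (fun i => if hi : i ∈ W n then u ⟨i, hi⟩ else x0) ∈ R n}
  have hRS : ∀ n, R n = (W n).restrict ⁻¹' S n := by
    intro n
    ext x
    show x ∈ R n ↔ (fun i => if hi : i ∈ W n then (W n).restrict x ⟨i, hi⟩ else x0) ∈ R n
    refine hW n _ _ fun i hi => ?_
    rw [dif_pos hi]
    rfl
  have hmeas : ∀ n, MeasurableSet (R n) := by
    intro n
    rw [hRS n]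
    exact (Set.toFinite (S n)).measurableSet.preimage (by fun_prop)
  have hreal : ∀ n, μ.real (R n) * (Fintype.card X : ℝ) ^ (W n).card = Nat.card (S n) := by
    intro n
    have h1 : μ.real (R n) = (Measure.pi fun i : W n => ν).real (S n) := by
      rw [hRS n, Measure.real, Measure.real, ← Measure.infinitePi_map_restrict (μ := fun _ : I => ν) (I := W n),
        Measure.map_apply (by fun_prop) (Set.toFinite (S n)).measurableSet]
    have h2 : (Measure.pi fun i : W n => ν).real (S n) =
        ∑ u ∈ (Set.toFinite (S n)).toFinset, (Measure.pi fun i : W n => ν).real {u} := by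
      rw [sum_measureReal_singleton, Set.Finite.coe_toFinset]
    have h3 : ∀ u : W n → X, (Measure.pi fun i : W n => ν).real {u} = ((Fintype.card X : ℝ) ^ (W n).card)⁻¹ := by
      intro u
      rw [Measure.real, Measure.pi_singleton]
      simp only [hν, prod_const, ENNReal.toReal_pow, ENNReal.toReal_inv, ENNReal.toReal_natCast, inv_pow]
      rw [card_univ, Fintype.card_coe]
    have hX : (Fintype.card X : ℝ) ^ (W n).card ≠ 0 := by
      have : 0 < Fintype.card X := Fintype.card_pos
      positivity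
    rw [h1, h2, sum_congr rfl fun u _ => h3 u, sum_const, nsmul_eq_mul, mul_assoc, inv_mul_cancel₀ hX, mul_one,
      Nat.card_coe_set_eq, Set.ncard_eq_toFinset_card _ (Set.toFinite (S n))]
  have hlow : {k | δ ≤ μ.real (R k)} ∈ U := by
    refine mem_of_superset h fun n hn => ?_
    have hX : (0 : ℝ) < (Fintype.card X : ℝ) ^ (W n).card := by
      have : 0 < Fintype.card X := Fintype.card_pos
      positivity
    have h1 : δ * (Fintype.card X : ℝ) ^ (W n).card ≤ μ.real (R n) * (Fintype.card X : ℝ) ^ (W n).card := by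
      rw [hreal n]
      exact hn
    exact le_of_mul_le_mul_right h1 hX
  obtain ⟨K, hK, hK'⟩ := exists_fip (μ := μ) hdiag hmeas hδ hlow
  -- compactness
  have hclosed : ∀ n, IsClosed (R n) := by
    intro n
    rw [hRS n]
    exact (isClosed_discrete (S n)).preimage (continuous_pi fun i => continuous_apply _)
  have hne : (⋂ k : K, R k).Nonempty := by
    have h1 := (isCompact_univ (X := I → X)).inter_iInter_nonempty (fun k : K => R k) (fun k => hclosed k) (by
      intro u
      rw [Set.univ_inter]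
      have h2 := hK' (u.image fun k : K => (k : ℕ)) (by
        intro i hi
        obtain ⟨k, _, rfl⟩ := mem_image.1 hi
        exact k.2)
      obtain ⟨y, hy⟩ := h2
      refine ⟨y, Set.mem_iInter₂.2 fun k hk => ?_⟩
      exact Set.mem_iInter₂.1 hy k (mem_image.2 ⟨k, hk, rfl⟩))
    rwa [Set.univ_inter] at h1
  obtain ⟨y, hy⟩ := hne
  exact ⟨y, mem_of_superset hK fun k hk => Set.mem_iInter.1 hy ⟨k, hk⟩⟩

end product

end Pool.Agent.helper39.MU
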