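import Pool.Agent.helper69.MU.Uni
import Pool.Agent.helper39.MU.Point

/-!
# A point in many measurable sets (module MM1 of project MU)

For measurable sets `R n` of the product `I → X` such that almost every point is not in many of them, the measure of
`R n` is eventually small, for ultrafilters with the diagonal property.
-/

set_option autoImplicit false

namespace Pool.Agent.helper39.MU

open Finset Filter MeasureTheory Pool.Agent.helper69.MU

theorem fub_meas {I X : Type} [Countable I] [Fintype X] [Nonempty X] [MeasurableSpace X]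
    [MeasurableSingletonClass X] (U : Ultrafilter ℕ)
    (hdiag : ∀ B : ℕ → Set ℕ, (∀ k, B k ∈ U) → ∃ K ∈ U, ∀ k ∈ K, ∀ k' ∈ K, k < k' → k' ∈ B k)
    (R : ℕ → Set (I → X)) (hR : ∀ n, MeasurableSet (R n))
    (h : ∀ᵐ z ∂(um I X), ¬ ∀ᶠ n in (U : Filter ℕ), z ∈ R n) (δ : ℝ) (hδ : 0 < δ) :
    ∀ᶠ n in (U : Filter ℕ), (um I X).real (R n) < δ := by
  classical
  letI : TopologicalSpace X := ⊥
  haveI : DiscreteTopology X := ⟨rfl⟩
  haveI : BorelSpace X := inferInstance
  haveI : IsProbabilityMeasure (uni X) :=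
    inferInstanceAs (IsProbabilityMeasure (PMF.uniformOfFintype X).toMeasure)
  haveI : IsProbabilityMeasure (um I X) :=
    inferInstanceAs (IsProbabilityMeasure (Measure.infinitePi fun _ : I => uni X))
  haveI : BorelSpace (I → X) := inferInstance
  -- a measurable conull set
  obtain ⟨N, hN1, hN2, hN3⟩ := exists_measurable_superset_of_null (ae_iff.1 h)
  by_contra hcon
  have hlow : {k | δ ≤ (um I X).real (R k)} ∈ U := by
    have h1 : {k | (um I X).real (R k) < δ} ∉ U := hcon
    have h2 := Ultrafilter.compl_mem_iff_notMem.2 h1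
    refine mem_of_superset h2 fun k hk => ?_
    exact not_lt.1 (show ¬ (um I X).real (R k) < δ from hk)
  have hK : ∀ n, ∃ K ⊆ R n \ N, IsCompact K ∧ (δ ≤ (um I X).real (R n) → δ / 2 ≤ (um I X).real K) := by
    intro n
    by_cases hn : δ ≤ (um I X).real (R n)
    · have hm : MeasurableSet (R n \ N) := (hR n).diff hN2
      have e1 : (um I X) (R n \ N) = (um I X) (R n) := measure_diff_null hN3
      have h1 : ENNReal.ofReal (δ / 2) < (um I X) (R n \ N) := by
        rw [e1, ENNReal.ofReal_lt_iff_lt_toReal (by positivity) (measure_ne_top _ _)]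
        have : δ ≤ ((um I X) (R n)).toReal := hn
        linarith
      obtain ⟨K, hK1, hK2, hK3⟩ := hm.exists_lt_isCompact_of_ne_top (measure_ne_top _ _) h1
      refine ⟨K, hK1, hK2, fun _ => ?_⟩
      rw [ENNReal.ofReal_lt_iff_lt_toReal (by positivity) (measure_ne_top _ _)] at hK3
      exact hK3.le
    · exact ⟨∅, Set.empty_subset _, isCompact_empty, fun h' => absurd h' hn⟩
  choose K hK1 hK2 hK3 using hK
  obtain ⟨A, hA, hA'⟩ := exists_fip (μ := um I X) (R := K) hdiag (fun k => (hK2 k).measurableSet)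
    (half_pos hδ) (mem_of_superset hlow fun k hk => hK3 k hk)
  have hne : (⋂ k : A, K k).Nonempty := by
    have h1 := (isCompact_univ (X := I → X)).inter_iInter_nonempty (fun k : A => K k)
      (fun k => (hK2 k).isClosed) (by
      intro u
      rw [Set.univ_inter]
      have h2 := hA' (u.image fun k : A => (k : ℕ)) (by
        intro i hi
        obtain ⟨k, _, rfl⟩ := mem_image.1 hi
        exact k.2)
      obtain ⟨y, hy⟩ := h2
      refine ⟨y, Set.mem_iInter₂.2 fun k hk => ?_⟩
      exact Set.mem_iInter₂.1 hy k (mem_image.2 ⟨k, hk, rfl⟩))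
    rwa [Set.univ_inter] at h1
  obtain ⟨y, hy⟩ := hne
  have hyA : ∀ k ∈ A, y ∈ R k \ N := fun k hk => hK1 k (Set.mem_iInter.1 hy ⟨k, hk⟩)
  obtain ⟨k, hk⟩ := U.nonempty_of_mem hA
  refine (hyA k hk).2 (hN1 ?_)
  show ¬ ¬ ∀ᶠ n in (U : Filter ℕ), y ∈ R n
  rw [not_not]
  exact mem_of_superset hA fun k hk => (hyA k hk).1

end Pool.Agent.helper39.MU
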